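import Pool.Agent.H5.BHG.Stmts2

/-! # Row FNH of the board `bhg`: the strong form -/

set_option autoImplicit false

namespace Pool.BHG

open Filter TMLib Pool.PG Pool.DPG

private lemma fnh_win (hTPG : TPGStmt) (t : ℕ) (g : Game) (hg : Valid g)
    (hne : sol t (cmp g) ≠ []) :
    (sol t (cmp g)).length = g.length ∧
      ∀ v < g.length, Win g ((sol t (cmp g)).getD v false) v := by
  obtain ⟨hv, hw⟩ := cmw g hg
  have hlen : (Pool.PG.cmp g).length = g.length := by simp [Pool.PG.cmp]
  obtain ⟨h1, h2⟩ := hTPG t (cmp g) hv hne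
  refine ⟨h1.trans hlen, fun v hvl => ?_⟩
  exact (hw v hvl _).1 (h2 v (by rw [hlen]; exact hvl))

private lemma fnh_wt {n : ℕ} (p : ℝ) (h0 : 0 ≤ p) (h1 : p ≤ 1) (E : Fin n → Fin n → Bool) :
    0 ≤ wt p E := by
  unfold wt
  refine Finset.prod_nonneg fun v _ => Finset.prod_nonneg fun w _ => ?_
  split_ifs
  · exact h0
  · linarith

/-- Row FNH. -/
theorem fnh_thm (hSTD : STDStmt) (hTPG : TPGStmt) (hMXE : MXEStmt) (hPSO : PSOStmt)
    (hWTP : WTPStmt) (hGVM : GVMStmt) : FNHStmt := by
  classical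
  intro t ht
  refine ⟨fun g => sol t (cmp g), bot_all.1 (List Bool) (sol t) (hPSO t), ?_, ?_, ?_⟩
  · intro g hg hne
    exact fnh_win hTPG t g hg hne
  · intro g hg hM
    by_cases h0 : sol t (cmp g) = []
    · have hlen : (Pool.PG.cmp g).length = g.length := by simp [Pool.PG.cmp]
      have hg0 : g.length = 0 := by
        by_contra hne
        exact hSTD t (cmp g) (by rw [hlen]; omega) (cmw g hg).1 (hMXE t g hg hM) h0
      refine ⟨?_, fun v hvl => by omega⟩
      show (sol t (cmp g)).length = g.length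
      rw [h0, hg0]
      rfl
    · exact fnh_win hTPG t g hg h0
  · intro n p hn hp0 hp1
    refine le_trans (Finset.sum_le_sum_of_subset_of_nonneg ?_ ?_) (hWTP n p hp0 hp1)
    · intro E hE
      rw [Finset.mem_filter] at hE ⊢
      refine ⟨Finset.mem_univ _, fun hC => ?_⟩
      obtain ⟨-, o, q, h0⟩ := hE
      obtain ⟨hl, hv, hM⟩ := hGVM n o q E hn hC
      have hlen : (Pool.PG.cmp (dgame o q E)).length = (dgame o q E).length := by
        simp [Pool.PG.cmp]
      exact hSTD t (cmp (dgame o q E)) (by rw [hlen, hl]; omega) (cmw _ hv).1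
        (hMXE t _ hv (hM t ht)) h0
    · intro E _ _
      exact fnh_wt p hp0 hp1 E

end Pool.BHG
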