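import Pool.Agent.H5.BHG.Stmts

/-!
# Board `bhg`, row RCG: soundness of the recursion
-/

set_option autoImplicit false

namespace Pool.BHG

open Filter TMLib Pool.PG Pool.DPG

private theorem rcg_jn_ne (g : Game) (j : Bool) (B L : List Bool) (h : jn g j B L ≠ []) :
    L ≠ [] := by
  intro hL
  apply h
  unfold jn
  rw [if_pos hL]

private theorem rcg_f1_mem (S : Game → List Bool → List Bool)
    (C : Game → List (Bool × List Bool)) (g : Game) (X : List Bool) (h : fd S C g X ≠ []) :
    f1 S C g X ∈ fd S C g X := by
  unfold f1
  generalize fd S C g X = l at h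
  cases l with
  | nil => exact absurd rfl h
  | cons a l => simp

/-- The next set is the mask of a subgame. -/
theorem rcg_nx_sub (S : Game → List Bool → List Bool)
    (C : Game → List (Bool × List Bool)) (g : Game) (X : List Bool) (hX : Sub g X) :
    Sub g (nx S C g X) := by
  unfold nx
  split_ifs with h
  · exact (dsb_all g (pl g X) X (tp g X) hX).1
  · exact (dsb_all g (f1 S C g X).1 X (f1 S C g X).2 hX).1

/-- **RCG** -/
theorem rcg_thm (h1 : FDGStmt) : RCGStmt := by
  intro S C R g hS hR t
  induction t with
  | zero =>
    intro X _ h
    exact absurd rfl h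
  | succ t ih =>
    intro X hX h
    have hstep : rcg S C R g (t + 1) X = upp S C R g X (rcg S C R g t (nx S C g X)) := rfl
    rw [hstep] at h ⊢
    have hL : rcg S C R g t (nx S C g X) ≠ [] →
        Lab g (nx S C g X) (rcg S C R g t (nx S C g X)) := fun hne =>
      ih (nx S C g X) (rcg_nx_sub S C g X hX) hne
    generalize rcg S C R g t (nx S C g X) = L at h hL ⊢
    by_cases hb : (X.any fun b => b) = false
    · have e1 : upp S C R g X L = msk g.length fun _ => true := by
        unfold upp
        rw [if_pos hb]
      rw [e1]
      have he : fs g X = ∅ := by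
        rw [← Finset.not_nonempty_iff_eq_empty]
        intro hne
        have h3 := ((fsb_thm.2.2.1 g X hX.1).2).2 hne
        rw [hb] at h3
        exact Bool.false_ne_true h3
      refine ⟨(fsb_thm.1 g _).1, fun v => v, ?_⟩
      rw [he]
      refine ⟨?_, ?_, ?_, ?_⟩ <;>
      · intro v hv
        exact absurd hv (Finset.notMem_empty v)
    · have hne : (fs g X).Nonempty := by
        rw [Bool.not_eq_false] at hb
        exact ((fsb_thm.2.2.1 g X hX.1).2).1 hb
      by_cases hf : fd S C g X = []
      · have e1 : upp S C R g X L = zs g (R g) X L := by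
          unfold upp
          rw [if_neg hb, if_pos hf]
        have e2 : nx S C g X = dif g X (nA g X) := by
          unfold nx
          rw [if_pos hf]
        rw [e1] at h ⊢
        rw [e2] at hL
        exact zss_all g (R g) X L hX hne hL hR h
      · have e1 : upp S C R g X L =
            jn g (f1 S C g X).1 (att (f1 S C g X).1 g X (f1 S C g X).2) L := by
          unfold upp
          rw [if_neg hb, if_neg hf]
        have e2 : nx S C g X = dif g X (att (f1 S C g X).1 g X (f1 S C g X).2) := by
          unfold nx
          rw [if_neg hf]
        rw [e1] at h ⊢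
        rw [e2] at hL
        have hLn := rcg_jn_ne g _ _ L h
        exact (h1 S C g X hS hX (f1 S C g X) (rcg_f1_mem S C g X hf)).2.2 L hLn (hL hLn)

end Pool.BHG
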