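import Pool.Agent.H5.BHG.Stmts5

/-!
# Board `bh3`, row TP3: soundness of `so3` (after `Pool/Agent/H5/BHG/TP2.lean`)
-/

set_option autoImplicit false

namespace Pool.BHG

open Filter TMLib Pool.PG Pool.DPG

theorem tp3_thm (hSN3 : SN3Stmt) : TP3Stmt := by
  intro c g hg hne
  obtain ⟨hl, hfs⟩ := fsb_thm.1 g (fun _ => true)
  have hfs' : fs g (msk g.length fun _ => true) = Finset.range g.length := by
    rw [hfs]
    exact Finset.filter_true_of_mem fun _ _ => rfl
  have hsub : Sub g (msk g.length fun _ => true) := by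
    refine ⟨hl, fun v hv => ?_⟩
    rw [hfs'] at hv ⊢
    obtain ⟨h2, h3⟩ := hg v (Finset.mem_range.1 hv)
    obtain ⟨w, hw⟩ := List.exists_mem_of_ne_nil _ h2
    exact ⟨w, Finset.mem_range.2 (h3 w hw), hw⟩
  obtain ⟨h4, σ, hs⟩ : Lab g (msk g.length fun _ => true) (so3 c g) :=
    rcg_all (lg c) c4 one g (hSN3 c g) (onsS_all.1 g) (g.length + 1) _ hsub hne
  refine ⟨h4, fun v hv => ?_⟩
  rw [hfs'] at hs
  have hsol : Sol g (fun v => (so3 c g).getD v false) σ := by
    refine ⟨?_, ?_, ?_, ?_⟩
    · intro v hv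
      exact (hs.mem v (Finset.mem_range.2 hv)).2
    · intro v hv
      exact hs.stay v (Finset.mem_range.2 hv)
    · intro v hv h2 w hw
      exact hs.trap v (Finset.mem_range.2 hv) h2 w (Finset.mem_range.2 ((hg v hv).2 w hw)) hw
    · intro v hv x hx h2
      have h3 : ∀ n, x n < g.length := by
        intro n
        induction n with
        | zero => rw [hx.1]; exact hv
        | succ n ih => exact (hg (x n) ih).2 _ (hx.2 n)
      exact hs.won v (Finset.mem_range.2 hv) x hx.1
        (fun n => ⟨Finset.mem_range.2 (h3 n), hx.2 n⟩) h2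
  exact (win_row g _ σ hg hsol v hv _).2 rfl

end Pool.BHG
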